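import Pool.Agent.Run7.h581.FM.Gen

/-!
# Tame representations ramified at arbitrarily many primes which are inert over subfields

Let `K` be a number field, `p` a prime, `p ^ m > 2`, and `S` a finite or infinite set of primes of
`K`. Call a subfield `k` of `K` good if it has no cyclic extension of degree `p` in which only
primes below `S` and prime to `p` ramify (for example, if `k = ℚ`, or `k` has no cyclic extension
of degree `p` unramified at all finite primes, and `N(v) ≢ 1` modulo `p` for all primes `v` of `k`
below `S`). Call `w ∈ S` special if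

* `w` is inert over a good subfield `k` of `K`, that is `N(w) = N(v) ^ [K : k]` for the prime `v` of
  `k` below `w` (the subfield may depend on `w`), or
* `p` is odd and `K` is quadratic over a good subfield.

The level of `w` is the number `j` for which `p ^ j` is the exact power of `p` dividing `N(w) - 1`.

Let `A` be any Noetherian local ring of residue characteristic `p` with its adic topology and
`ρ : G_K → GL_n(A)` a continuous representation, of any dimension, unramified outside `S` and at the
primes above `p`, such that the inertia groups at a prime `w` of level `j` act trivially modulo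
`p ^ m`, modulo `p ^ (⌊j/2⌋ + 1)` and, if `w` is not special, modulo `p ^ j`. Suppose that for all
`j ≥ m` at most two primes of level `j` in `S` are not special, and that `K` has no extension which
is unramified at all finite primes (for example `K = ℚ`, or `K` of degree `2`, `3`, `4` and absolute
discriminant at most `6`, `31`, `158`), or that `K` has no such cyclic extension of degree `p` and
`ρ` is residually unipotent. Then `ρ` is trivial if `p` is a nonzerodivisor in `A`, and more
generally if `p ^ (m + 1) a = 0` implies `p ^ m a = 0` in `A`; for every `A` the image of `ρ` is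
finite if `S` is finite.

There is no condition on the residue symbols (linking numbers) of the primes in `S` and no bound on
their number, and `ρ` need not extend to the absolute Galois group of a subfield. For example, let
`K` be a number field whose class number is prime to the odd prime `p`, and `S` the set of all
rational primes `l ≢ 1` modulo `p`, `l ≠ p`, which are inert in `K` and for which `p ^ 2` does not
divide `l ^ [K : ℚ] - 1`. Then every continuous residually unipotent representation
`ρ : G_K → GL_n(ℤ_p)` which is unramified outside `S` and trivial modulo `p` on inertia is trivial.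

Proof. Let `I` be the ideal generated by the entries of all `ρ(g) - 1`, and let `φ` be the reduction
of `ρ - 1` modulo `I ^ 2`, a homomorphism to an abelian group. Its composition with the transfer
from the absolute Galois group of a good subfield `k` is unramified outside the primes below `S`,
hence zero. If `w` is inert over `k`, the transfer of a Frobenius element of `k` at `w` is a
Frobenius element `σ` of `K` at `w`; hence the entries of `ρ(σ) - 1` are in `I ^ 2`. If `K` is
quadratic over `k`, `φ` is inverted by the elements of `G_k` outside `G_K`. Let `V` be a valuation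
ring which dominates a quotient of `A` by a prime ideal, and `y` a generator of `I V`. In both cases
the tame relation `ρ(σ) ρ(τ) = ρ(τ) ^ N(w) ρ(σ)` shows that `p ^ j ∈ y ^ 2 V` if the entries of
`ρ(τ) - 1` generate `y V`, and as they are divisible by `p ^ e` with `2 e > j`, this is impossible.
At most two other primes are treated as in `MP_924d78_nt.SeveralLevels`. Hence `I` is nilpotent, and
then it is zero by the tame relations.
-/

set_option autoImplicit false

open NumberField IsLocalRing

namespace Pool.Agent.Results.MP_f68ac8_nt.InertPrimes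

/-- the absolute Galois group of the field `K`, with the Krull topology -/
abbrev AbsGal (K : Type) [Field K] : Type := Gal(AlgebraicClosure K/K)

section
variable {K : Type} [Field K]

/-- `τ` lies in the inertia group at the ideal `P` of the ring of all algebraic integers. -/
def InInertia (P : Ideal (𝓞 (AlgebraicClosure K))) (τ : AbsGal K) : Prop :=
  ∀ x : 𝓞 (AlgebraicClosure K), τ • x - x ∈ P

/-- the ideal of the ring of integers of `K` below the ideal `P` of the ring of all algebraic
integers -/
noncomputable def below (P : Ideal (𝓞 (AlgebraicClosure K))) : Ideal (𝓞 K) :=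
  P.comap (algebraMap (𝓞 K) (𝓞 (AlgebraicClosure K)))

end

/-- Every homomorphism with open kernel from the absolute Galois group of `K` to the group `E`
which is trivial on the inertia groups at all maximal ideals of the ring of all algebraic integers
is trivial. -/
def NoUnramified (K : Type) [Field K] (E : Type) [Group E] : Prop :=
  ∀ f : AbsGal K →* E, IsOpen (f.ker : Set (AbsGal K)) →
    (∀ P : Ideal (𝓞 (AlgebraicClosure K)), P.IsMaximal → ∀ τ, InInertia P τ → f τ = 1) →
    ∀ g, f g = 1

/-- `K` has no extension which is unramified at all finite primes. -/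
def NoUnramifiedExtension (K : Type) [Field K] : Prop := ∀ (E : Type) [Group E], NoUnramified K E

/-- `K` is the field of rational numbers, or has degree `2`, `3` or `4` and absolute discriminant
at most `6`, `31` or `158`. -/
def SmallDiscriminant (K : Type) [Field K] [NumberField K] : Prop :=
  Module.finrank ℚ K = 1 ∨ (Module.finrank ℚ K = 2 ∧ |discr K| ≤ 6) ∨
    (Module.finrank ℚ K = 3 ∧ |discr K| ≤ 31) ∨ (Module.finrank ℚ K = 4 ∧ |discr K| ≤ 158)

section
variable {K : Type} [Field K] [NumberField K]

/-- the ideal of the ring of integers of the subfield `k` below the ideal `w` of the ring of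
integers of `K` -/
noncomputable def down (k : IntermediateField ℚ K) (w : Ideal (𝓞 K)) : Ideal (𝓞 k) :=
  w.comap (algebraMap (𝓞 k) (𝓞 K))

/-- `w` is inert over the subfield `k`: its norm is the norm of the prime of `k` below it to the
power `[K : k]`. -/
def Inert (k : IntermediateField ℚ K) (w : Ideal (𝓞 K)) : Prop :=
  Ideal.absNorm w = Ideal.absNorm (down k w) ^ Module.finrank k K

/-- `k` has no cyclic extension of degree `p` in which only primes below `S` and prime to `p`
ramify: every homomorphism with open kernel from the absolute Galois group of `k` to `ℤ/p` which is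
trivial on the inertia groups at all maximal ideals of the ring of all algebraic integers, except
for those which do not contain `p` and lie above a prime of `k` below `S`, is trivial. -/
def NoCyclicBelow (p : ℕ) (S : Set (Ideal (𝓞 K))) (k : IntermediateField ℚ K) : Prop :=
  ∀ f : AbsGal k →* Multiplicative (ZMod p), IsOpen (f.ker : Set (AbsGal k)) →
    (∀ P : Ideal (𝓞 (AlgebraicClosure k)), P.IsMaximal →
      ¬ ((p : 𝓞 k) ∉ below P ∧ ∃ w ∈ S, down k w = below P) → ∀ τ, InInertia P τ → f τ = 1) →
    ∀ g, f g = 1

/-- `k` is good: it has no cyclic extension of degree `p` in which only primes below `S` and prime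
to `p` ramify; or it has small discriminant or no cyclic extension of degree `p` which is unramified
at all finite primes, and `p` does not divide `N(v) - 1` for the primes `v` of `k` below `S`. -/
def Good (p : ℕ) (S : Set (Ideal (𝓞 K))) (k : IntermediateField ℚ K) : Prop :=
  NoCyclicBelow p S k ∨ ((SmallDiscriminant k ∨ NoUnramified k (Multiplicative (ZMod p))) ∧
    ∀ w ∈ S, ¬ p ∣ Ideal.absNorm (down k w) - 1)

/-- `w` is inert over a good subfield of `K`. -/
def InertOverGood (p : ℕ) (S : Set (Ideal (𝓞 K))) (w : Ideal (𝓞 K)) : Prop :=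
  ∃ k : IntermediateField ℚ K, Good p S k ∧ Inert k w

/-- `K` is quadratic over a good subfield. -/
def QuadraticOverGood (p : ℕ) (S : Set (Ideal (𝓞 K))) : Prop :=
  ∃ k : IntermediateField ℚ K, Good p S k ∧ Module.finrank k K = 2

/-- `w` is special: it is inert over a good subfield, or `p` is odd and `K` is quadratic over a good
subfield. -/
def Special (p : ℕ) (S : Set (Ideal (𝓞 K))) (w : Ideal (𝓞 K)) : Prop :=
  InertOverGood p S w ∨ (p ≠ 2 ∧ QuadraticOverGood p S)

/-- At most two elements of `S` of level `j` are not special. -/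
def AtMostTwoNotSpecial (p j : ℕ) (S : Set (Ideal (𝓞 K))) : Prop :=
  ∃ v w : Ideal (𝓞 K), ∀ x ∈ S, ¬ Special p S x →
    p ^ j ∣ Ideal.absNorm x - 1 → ¬ p ^ (j + 1) ∣ Ideal.absNorm x - 1 → x = v ∨ x = w

variable {A : Type} [CommRing A] {n : ℕ}

/-- The reductions of all `ρ g - 1` are nilpotent. -/
def ResiduallyUnipotent [IsLocalRing A] (ρ : AbsGal K →* GL (Fin n) A) : Prop :=
  ∀ g, ∃ M : ℕ, ∀ i j, (((ρ g : Matrix (Fin n) (Fin n) A) - 1) ^ M) i j ∈ maximalIdeal A

/-- `ρ` is trivial on the inertia groups at the primes above `p` and at the primes not in `S`. -/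
def UnramifiedOutside (p : ℕ) (S : Set (Ideal (𝓞 K))) (ρ : AbsGal K →* GL (Fin n) A) : Prop :=
  ∀ P : Ideal (𝓞 (AlgebraicClosure K)), P.IsMaximal →
    ((p : 𝓞 (AlgebraicClosure K)) ∈ P ∨ below P ∉ S) → ∀ τ, InInertia P τ → ρ τ = 1

/-- The inertia groups at every prime `w` of `K` which does not lie above `p` act trivially modulo
`p ^ e` if `e ≤ m`, if `p ^ (2 (e - 1))` divides `N(w) - 1`, or if `w` is not special and `p ^ e`
divides `N(w) - 1`. -/
def InertiaCondition (p m : ℕ) (S : Set (Ideal (𝓞 K))) (ρ : AbsGal K →* GL (Fin n) A) : Prop :=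
  ∀ P : Ideal (𝓞 (AlgebraicClosure K)), P.IsMaximal → (p : 𝓞 (AlgebraicClosure K)) ∉ P →
    ∀ τ, InInertia P τ → ∀ e : ℕ,
      e ≤ m ∨ p ^ (2 * (e - 1)) ∣ Ideal.absNorm (below P) - 1 ∨
        (¬ Special p S (below P) ∧ p ^ e ∣ Ideal.absNorm (below P) - 1) →
      ∀ i j, (p : A) ^ e ∣ ((ρ τ : Matrix (Fin n) (Fin n) A) - 1) i j

theorem nc_of_good {p : ℕ} [Fact p.Prime] {S : Set (Ideal (𝓞 K))} {k : IntermediateField ℚ K}
    (h : Good p S k) : Run7.h581.FM.NC k K p S := by
  apply Run7.h581.FM.nc_of_nck
  rcases h with h | ⟨(h | h) | h, hS'⟩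
  · exact h
  · exact Run7.h581.FM.nck_of_noUr (Pool.Agent.R417.FK.noUr_of_all
      (Pool.Agent.R417.FK.noUrAll_one h) p) hS'
  · exact Run7.h581.FM.nck_of_noUr (Pool.Agent.R417.FK.noUr_of_all
      (Pool.Agent.R417.FK.noUrAll_small h) p) hS'
  · exact Run7.h581.FM.nck_of_noUr h hS'

end

theorem result (p : ℕ) [Fact p.Prime] (m : ℕ) (hm : 2 < p ^ m) (n : ℕ)
    (K : Type) [Field K] [NumberField K] (S : Set (Ideal (𝓞 K)))
    (hS : ∀ j, m ≤ j → AtMostTwoNotSpecial p j S)
    (A : Type) [CommRing A] [IsLocalRing A] [IsNoetherianRing A] [TopologicalSpace A]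
    (hA : IsAdic (maximalIdeal A)) (hpA : (p : A) ∈ maximalIdeal A)
    (ρ : AbsGal K →* GL (Fin n) A) (hρ : Continuous ρ)
    (hK : SmallDiscriminant K ∨ NoUnramifiedExtension K ∨
      (NoUnramified K (Multiplicative (ZMod p)) ∧ ResiduallyUnipotent ρ))
    (hur : UnramifiedOutside p S ρ) (hI : InertiaCondition p m S ρ) :
    ((∀ a : A, (p : A) ^ (m + 1) * a = 0 → (p : A) ^ m * a = 0) → ∀ g, ρ g = 1) ∧
    (S.Finite → (Set.range ρ).Finite) := by
  classical
  have hp : p.Prime := Fact.out
  have hm1 : 1 ≤ m := by
    rcases Nat.eq_zero_or_pos m with h | h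
    · rw [h, pow_zero] at hm
      omega
    · exact h
  have hcts : ∀ N : ℕ, ∀ᶠ g in nhds (1 : AbsGal K), Pool.Agent.TH831.NA.MJ (maximalIdeal A ^ N)
      ((ρ g : Matrix (Fin n) (Fin n) A) - 1) := fun N => Pool.Agent.TH831.NA.cts_memN hA hρ N
  have hall : Pool.Agent.R417.FK.NoUrAll K ∨ (Pool.Agent.R417.FK.NoUr K p ∧
      ResiduallyUnipotent ρ) := by
    rcases hK with (h | h) | h | h
    · exact Or.inl (Pool.Agent.R417.FK.noUrAll_one h)
    · exact Or.inl (Pool.Agent.R417.FK.noUrAll_small h)
    · exact Or.inl h
    · exact Or.inr h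
  have hG : Pool.Agent.R417.FK.Good ρ := by
    rcases hall with h | ⟨h1, h2⟩
    · exact Pool.Agent.R417.FK.good_all h hcts
    · exact Pool.Agent.R417.FK.good_p (p := p) h1 hpA hcts h2
  have hKp : Pool.Agent.R417.FK.NoUr K p := by
    rcases hall with h | ⟨h1, -⟩
    · exact Pool.Agent.R417.FK.noUr_of_all h p
    · exact h1
  have hfin := Run7.h581.FM.finalJ (S := S) (T := {w | Special p S w}) hpA hcts hG hKp hm1 hm
    (fun w hw => by
      rcases hw with ⟨k, hk1, hk2⟩ | ⟨h1, k, hk1, hk2⟩
      · exact Or.inl ⟨k, inferInstance, inferInstance, inferInstance, nc_of_good hk1, hk2⟩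
      · exact Or.inr ⟨h1, k, inferInstance, inferInstance, inferInstance, nc_of_good hk1, hk2⟩)
    (fun P hP h τ hτ => hur P hP (by
      by_contra hcon
      push Not at hcon
      exact h hcon) τ hτ) hI hS
  refine ⟨hfin.1, fun hSf => ?_⟩
  -- the residue characteristics
  have hex : ∀ v : Ideal (𝓞 K), ∃ l : ℕ, l.Prime ∧
      ((∃ l' : ℕ, l'.Prime ∧ (l' : 𝓞 K) ∈ v) → (l : 𝓞 K) ∈ v) := by
    intro v
    by_cases h : ∃ l' : ℕ, l'.Prime ∧ (l' : 𝓞 K) ∈ v
    · obtain ⟨l, h1, h2⟩ := h
      exact ⟨l, h1, fun _ => h2⟩
    · exact ⟨2, Nat.prime_two, fun h' => absurd h' h⟩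
  choose l hl1 hl2 using hex
  refine hfin.2 (hSf.toFinset.image l) (fun q hq => ?_) (fun P hP hPR τ hτ => ?_)
  · obtain ⟨v, -, rfl⟩ := Finset.mem_image.1 hq
    exact hl1 v
  · refine hur P hP (Or.inr fun hPS => ?_) τ hτ
    have h1 : l (below P) ∈ hSf.toFinset.image l :=
      Finset.mem_image.2 ⟨below P, hSf.mem_toFinset.2 hPS, rfl⟩
    apply hPR _ h1
    have h2 : ∃ l' : ℕ, l'.Prime ∧ (l' : 𝓞 K) ∈ below P := by
      have hmax : (below P).IsMaximal := Pool.Agent.R417.FK.cm_max hP
      have hne : below P ≠ ⊥ := Pool.Agent.R417.FK.cm_ne_bot hP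
      have hprime := hmax.isPrime
      have hn : ((Ideal.absNorm (below P) : ℕ) : 𝓞 K) ∈ below P := Ideal.absNorm_mem _
      have hn0 : Ideal.absNorm (below P) ≠ 0 := by
        rw [Ne, Ideal.absNorm_eq_zero_iff]
        exact hne
      by_contra hcon
      push Not at hcon
      have h3 : ∀ N : ℕ, N ≠ 0 → ((N : ℕ) : 𝓞 K) ∉ below P := by
        intro N
        induction N using Nat.recOnMul with
        | zero => intro h; exact absurd rfl h
        | one =>
          intro _ h
          rw [Nat.cast_one] at h
          exact hmax.ne_top ((Ideal.eq_top_iff_one _).2 h)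
        | prime q hq => intro _; exact hcon q hq
        | mul a b ha hb =>
          intro hab h
          rw [Nat.cast_mul] at h
          rcases hprime.mem_or_mem h with h | h
          · exact ha (left_ne_zero_of_mul hab) h
          · exact hb (right_ne_zero_of_mul hab) h
      exact h3 _ hn0 hn
    have h3 := hl2 _ h2
    have h4 : algebraMap (𝓞 K) (𝓞 (AlgebraicClosure K)) ((l (below P) : ℕ) : 𝓞 K) ∈ P := h3
    rwa [map_natCast] at h4

end Pool.Agent.Results.MP_f68ac8_nt.InertPrimes
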