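import Pool.Agent.Run7.h753.TM.Noeth
import Pool.Agent.Run7.h753.TM.Count
import Pool.Agent.Run7.h753.TM.Off

/-!
# Symplectic representations with transvections on inertia, for most tuples of tame primes

Theorem. Let `r ≥ 0` and `δ > 0`. For all large primes `p` the following holds. For all primes
`q₁ ≡ 1 mod p` but a proportion of at most `δ`, for all primes `q₂ ≡ 1 mod p` but a proportion of at
most `δ`, …, for all primes `q_r ≡ 1 mod p` but a proportion of at most `δ`: let `A` be any Noetherian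
local ring of residue characteristic `p` (with its adic topology; the residue field may be infinite),
`n ≥ 0` and `ρ : Gal(ℚbar/ℚ) → GL_n(A)` a continuous residually unipotent representation which
preserves a nondegenerate alternating form, is unramified outside `q₁, …, q_r` and primes
`≢ 0, 1 mod p`, and such that all two by two minors of `ρ τ - 1` vanish for all `τ` in the inertia
groups at the `q i` (so these groups act by transvections). Then `ρ` has finite image, and it is
trivial if `p` is not a zero divisor in `A`, for example if `A` is a domain of characteristic zero.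
The bound for `p` depends on `r` and `δ` only, not on the dimension `n`. For `n = 2` these are all
residually unipotent representations in `SL_2(A)` with unipotent inertia, if `A` is a domain. For
larger `n` the condition at the `q i` is the one satisfied by the Tate modules of abelian varieties
with semistable reduction of toric rank at most one.

More precisely, for every `r` there is a nonzero integral polynomial `P` in the linking numbers
`λ i j`, `i ≠ j`, and the levels `u i = (q i - 1) / p`, which does not depend on `p`, such that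
`P(λ, u) ≠ 0` in `ℤ/p` implies this statement for `q₁, …, q_r` (if `p > 2`, `p ^ 2 ∤ q i - 1`).

Proof. For a domain `A` let `K` be the algebraic closure of its fraction field, with a valuation `v`
which dominates `A` (and a local ring of dimension one which dominates `A`). Generators `τ l` of
inertia act by `v ↦ v + ⟨v, x l⟩ x l` for vectors `x l ∈ K ^ n`. Put `F i j g = ⟨x i, ρ(g) x j⟩`, and
let `a` be a value of these functions of maximal absolute value. If `a ≠ 0` then `|a| < 1` since
`-F i j g ^ 2` is the trace of `(ρ(τ i) - 1)(ρ(g τ j g⁻¹) - 1)`. From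
`F i j (h (τ l) h') - F i j (h h') = -(F l j h')(F i l h)` and generation by the `τ l` (Burnside, class
field theory of `ℚ`) it follows that `(F i j g - F i j 1) / a ^ 2` is a homomorphism modulo the maximal
ideal. By the relations of the `τ l` with the Frobenius elements the reductions `O i j` of
`F i j 1 / a` satisfy `∑ λ l j O j l O j i = e u l O l i` up to a common scalar, `e = 0` or `1`, or they
vanish. These equations for an alternating matrix `O` have only the trivial solution for generic
`(λ, u)`: let `O ≠ 0` be a solution over the algebraic closure of `ℚ(λ, u)`. The derivations of this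
field which kill `O` form a space `N`; differentiating the equations bounds its dimension from above,
and the dimension of the space of all derivatives of `O` is bounded since they are tangent to the
alternating matrices of the same rank and support. The sum of the two bounds is too small. This
spreads out to all fields at which some `P` does not vanish. So all `F i j g` are zero, the `x l` are
fixed by the Galois group, and the relation for `l ≠ 1` gives `x l = 0` in characteristic zero. For
general `A` this is applied to the minimal primes; the ideal `I` generated by the entries of all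
`ρ g - 1` satisfies `p I ≤ I ^ 2`, so it is killed by a power of `p`, and the image is the closure of a
finitely generated torsion group which is solvable by finite. The proportions are computed with the
theorem of Schwartz and Zippel and the joint equidistribution of linking numbers up to scaling
(`Pool.Agent.Q202.QT.densN`).
-/

set_option autoImplicit false

open NumberField IsLocalRing

namespace Pool.Agent.Results.MP_f68ac8_nt.ManyTransvections

open Finset Filter
open Pool.Agent.Q202.RT Pool.Agent.Q202.QT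
open Pool.Agent.W569.TG (lk)

/-- the absolute Galois group of `ℚ`, with the Krull topology -/
abbrev AbsGal : Type := Gal(AlgebraicClosure ℚ/ℚ)

/-- `τ` lies in the inertia group at the ideal `P` of the ring of all algebraic integers. -/
def InInertia (P : Ideal (𝓞 (AlgebraicClosure ℚ))) (τ : AbsGal) : Prop :=
  ∀ x : 𝓞 (AlgebraicClosure ℚ), τ • x - x ∈ P

/-- `TransvTrivial p S`: let `A` be a Noetherian local ring with `p` in its maximal ideal and with its
adic topology, `J` an `n × n` matrix over `A` with `Jᵀ = -J` whose determinant is not in any minimal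
prime ideal of `A`, and `ρ` a continuous representation of the absolute Galois group of `ℚ` in `GL_n(A)`
with `ρ(g)ᵀ J ρ(g) = J` for all `g`, such that all `ρ(g) - 1` are nilpotent modulo the maximal ideal.
Assume that `ρ` is trivial on the inertia groups at all maximal ideals which contain no `l ∈ S`, and that
all two by two minors of `ρ τ - 1` vanish for `τ` in the inertia groups at the maximal ideals which
contain some `l ∈ S` with `p ∣ l - 1`. Then the image of `ρ` is finite, and there is `M` with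
`p ^ M (ρ(g) - 1) = 0` for all `g` (so `ρ` is trivial if `p` is not a zero divisor). -/
def TransvTrivial (p : ℕ) (S : Finset ℕ) : Prop :=
  ∀ (n : ℕ) (A : Type) [CommRing A] [IsLocalRing A] [IsNoetherianRing A] [TopologicalSpace A],
    IsAdic (maximalIdeal A) → (p : A) ∈ maximalIdeal A →
    ∀ J : Matrix (Fin n) (Fin n) A, J.transpose = -J → (∀ q ∈ minimalPrimes A, J.det ∉ q) →
    ∀ ρ : AbsGal →* GL (Fin n) A, Continuous ρ →
      (∀ g, (ρ g : Matrix (Fin n) (Fin n) A).transpose * J * (ρ g : Matrix (Fin n) (Fin n) A) = J) →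
      (∀ g, ∃ M : ℕ, ∀ i j, (((ρ g : Matrix (Fin n) (Fin n) A) - 1) ^ M) i j ∈ maximalIdeal A) →
      (∀ P : Ideal (𝓞 (AlgebraicClosure ℚ)), P.IsMaximal →
        (∀ l ∈ S, (l : 𝓞 (AlgebraicClosure ℚ)) ∉ P) → ∀ τ, InInertia P τ → ρ τ = 1) →
      (∀ P : Ideal (𝓞 (AlgebraicClosure ℚ)), P.IsMaximal →
        (∃ l ∈ S, p ∣ l - 1 ∧ (l : 𝓞 (AlgebraicClosure ℚ)) ∈ P) → ∀ τ, InInertia P τ →
          ∀ i i' j j', ((ρ τ : Matrix (Fin n) (Fin n) A) - 1) i j *
            ((ρ τ : Matrix (Fin n) (Fin n) A) - 1) i' j' =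
            ((ρ τ : Matrix (Fin n) (Fin n) A) - 1) i j' *
            ((ρ τ : Matrix (Fin n) (Fin n) A) - 1) i' j) →
      (Set.range ρ).Finite ∧
        ∃ M : ℕ, ∀ g i j, (p : A) ^ M * ((ρ g : Matrix (Fin n) (Fin n) A) - 1) i j = 0

/-- `TameTrivial p T`: `TransvTrivial p S` holds for all finite sets `S` of prime numbers `l ≠ p` whose
members congruent to `1` modulo `p` are in `T`. -/
def TameTrivial (p : ℕ) (T : Set ℕ) : Prop :=
  ∀ S : Finset ℕ, (∀ l ∈ S, l.Prime ∧ l ≠ p) → (∀ l ∈ S, p ∣ l - 1 → l ∈ T) → TransvTrivial p S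

/-- The linking number `λ l j` of the distinct primes `l` and `j`: the value of the homomorphism
`χ j : (ℤ/j)ˣ → ℤ/p` at the class of `l` (and `0` if `j` divides `l`, in particular if `l = j`). -/
noncomputable def linking {p : ℕ} (χ : ∀ j : ℕ, (ZMod j)ˣ →* Multiplicative (ZMod p))
    (l j : ℕ) : ZMod p :=
  open Classical in if h : Nat.Coprime l j then
    Multiplicative.toAdd (χ j (ZMod.unitOfCoprime l h)) else 0

/-- The linking numbers `λ i j` of the primes `q i` and the classes `u i` of `(q i - 1) / p`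
modulo `p`. -/
noncomputable def numbers {p r : ℕ} (χ : ∀ j : ℕ, (ZMod j)ˣ →* Multiplicative (ZMod p))
    (q : Fin r → ℕ) : (Fin r × Fin r) ⊕ Fin r → ZMod p :=
  Sum.elim (fun x => linking χ (q x.1) (q x.2)) fun i => (((q i - 1) / p : ℕ) : ZMod p)

/-- `Criterion r P`: let `p > 2` be a prime, `S` a finite set of prime numbers `l ≠ p` with
`p ^ 2 ∤ l - 1`, and let `q 0, ..., q (r - 1)` be distinct and such that all `l ∈ S` with `p ∣ l - 1` are
among them. If the value of `P` at the linking numbers and the `(q i - 1) / p` is not zero in `ℤ/p`, for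
nontrivial homomorphisms `χ l`, then `TransvTrivial p S` holds. -/
def Criterion (r : ℕ) (P : MvPolynomial ((Fin r × Fin r) ⊕ Fin r) ℤ) : Prop :=
  ∀ (p : ℕ) [Fact p.Prime], 2 < p → ∀ S : Finset ℕ,
    (∀ l ∈ S, l.Prime ∧ l ≠ p ∧ ¬ p ^ 2 ∣ l - 1) → ∀ q : Fin r → ℕ, Function.Injective q →
    (∀ l ∈ S, p ∣ l - 1 → ∃ i, l = q i) →
    ∀ χ : ∀ j : ℕ, (ZMod j)ˣ →* Multiplicative (ZMod p), (∀ l ∈ S, p ∣ l - 1 → ∃ x, χ l x ≠ 1) →
    MvPolynomial.aeval (numbers χ q) P ≠ 0 → TransvTrivial p S

open Classical in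
/-- The primes `q ≤ x` with `p ∣ q - 1`. -/
noncomputable def Pr (p x : ℕ) : Finset ℕ := (range (x + 1)).filter fun q => q.Prime ∧ p ∣ q - 1

open Classical in
/-- `Most p δ R m T`: for all primes `q₁ ≡ 1 mod p`, `q₁ ∉ T`, but a proportion of at most `δ`, for all
primes `q₂ ≡ 1 mod p`, `q₂ ∉ T ∪ {q₁}`, but a proportion of at most `δ`, …, for all primes
`q_m ≡ 1 mod p`, `q_m ∉ T ∪ {q₁, …, q_{m-1}}`, but a proportion of at most `δ`, the set
`T ∪ {q₁, …, q_m}` has the property `R`. -/
def Most (p : ℕ) (δ : ℝ) (R : Set ℕ → Prop) : ℕ → Set ℕ → Prop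
  | 0, T => R T
  | m + 1, T => ∀ ε : ℝ, 0 < ε → ∀ᶠ x : ℕ in atTop, (1 - δ - ε) * ((Pr p x).card : ℝ) ≤
      (((Pr p x).filter fun q => q ∉ T ∧ Most p δ R m (insert q T)).card : ℝ)

theorem Pr_eq (p x : ℕ) [Fact p.Prime] : Pr p x = P1 p x := by
  ext l
  rw [mem_P1, Pr, mem_filter, mem_range]
  constructor
  · rintro ⟨h1, h2, h3⟩
    exact ⟨by omega, h2, h3⟩
  · rintro ⟨h1, h2, h3⟩
    exact ⟨by omega, h2, h3⟩

section
variable {p : ℕ} [Fact p.Prime]

theorem transv_of (hp2 : 2 < p) (S : Finset ℕ)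
    (hS : ∀ l ∈ S, l.Prime ∧ l ≠ p ∧ ¬ p ^ 2 ∣ l - 1)
    (χ : ∀ j : ℕ, (ZMod j)ˣ →* Multiplicative (ZMod p)) (hχ : ∀ l ∈ S, p ∣ l - 1 → ∃ x, χ l x ≠ 1)
    {r : ℕ} (l : Fin r → ℕ) (hli : Function.Injective l)
    (hl : ∀ q ∈ S, p ∣ q - 1 → q ∈ Set.range l)
    (h0 : Run7.h753.TM.NoS 0 (fun i j => lk χ (l i) (l j)) (fun i => (((l i - 1) / p : ℕ) : ZMod p)))
    (h1 : Run7.h753.TM.NoS 1 (fun i j => lk χ (l i) (l j))
      (fun i => (((l i - 1) / p : ℕ) : ZMod p))) :
    TransvTrivial p S := by
  intro n A _ _ _ _ hA hpA J hJ hdet ρ hρ hρJ hres hur hI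
  obtain ⟨d⟩ := Pool.Agent.TH831.NA.exists_dt S (fun l hl => ⟨(hS l hl).1, (hS l hl).2.1⟩) χ hχ
  have hT : ∀ q ∈ S.filter (fun l => p ∣ l - 1), q ∈ Set.range l := fun q hq =>
    hl q (mem_filter.1 hq).1 (mem_filter.1 hq).2
  refine Run7.h753.TM.rep_noeth (by omega) hpA hS d
    (Run7.h753.TM.noOm_of 0 (lk χ) (fun l => (((l - 1) / p : ℕ) : ZMod p)) l hli _ hT h0)
    (Run7.h753.TM.noOm_of 1 (lk χ) (fun l => (((l - 1) / p : ℕ) : ZMod p)) l hli _ hT h1)
    (Pool.Agent.TH831.NA.cts_memN hA hρ) (fun g => hres g)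
    (fun g ⟨P, hP, h2, h3⟩ => hur P hP h2 g h3) hJ hdet hρJ fun q hq => ?_
  obtain ⟨hqS, hpq⟩ := mem_filter.1 hq
  exact hI (d.P q) (d.hP q (hS q hqS).1).1 ⟨q, hqS, hpq, (d.hP q (hS q hqS).1).2⟩ (d.τ q)
    (d.hτ q hqS hpq)

theorem good_of (hp2 : 2 < p) (χ : ∀ j : ℕ, (ZMod j)ˣ →* Multiplicative (ZMod p))
    (hχ : Kr χ) {r : ℕ} (l : Fin r → ℕ) (hli : Function.Injective l)
    (hG : ¬ Run7.h753.TM.Bad r (N829.QD.dat χ l)) : TameTrivial p (Set.range l) := by
  have hp : p.Prime := Fact.out
  unfold Run7.h753.TM.Bad at hG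
  push Not at hG
  obtain ⟨g1, g2, g3⟩ := hG
  have hsq : ∀ q ∈ Set.range l, ¬ p ^ 2 ∣ q - 1 := by
    rintro q ⟨i, rfl⟩ h
    apply g1 i
    show lv p (l i) = 0
    unfold lv
    rw [ZMod.natCast_eq_zero_iff]
    obtain ⟨m, hm⟩ := h
    refine ⟨m, ?_⟩
    rw [hm, pow_two, mul_assoc, Nat.mul_div_cancel_left _ hp.pos]
  intro S hS hT
  refine transv_of hp2 S (fun q hq => ⟨(hS q hq).1, (hS q hq).2, fun h => ?_⟩) χ
    (fun q hq hpq => (hχ q (hS q hq).1 hpq).1) l hli (fun q hq h => hT q hq h) g2 g3
  exact hsq q (hT q hq ((dvd_pow_self p two_ne_zero).trans h)) h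

theorem most_of (hp2 : 2 < p) (χ : ∀ j : ℕ, (ZMod j)ˣ →* Multiplicative (ZMod p))
    (hχ : Kr χ) {η δ : ℝ} (hη : 0 < η) (hδ : η + 1 / p ≤ δ) (m : ℕ) : ∀ (k : ℕ) (l : Fin k → ℕ),
      (∀ i, (l i).Prime) → (∀ i, p ∣ l i - 1) → Function.Injective l →
      N829.QD.GdN Run7.h753.TM.Bad η m k (N829.QD.dat χ l) →
      Most p δ (TameTrivial p) m (Set.range l) := by
  classical
  have hp : p.Prime := Fact.out
  have hp0 : (0 : ℝ) < p := by exact_mod_cast hp.pos
  have hp1 : (1 : ℝ) ≤ p := by exact_mod_cast hp.one_lt.le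
  induction m with
  | zero =>
    intro k l hl hpl hli hG
    exact good_of hp2 χ hχ l hli (N829.QD.gd_zero hG)
  | succ m ih =>
    intro k l hl hpl hli hG ε hε
    have hst := N829.QD.gd_step hη hG
    obtain ⟨Good, hGood⟩ : ∃ G : (Fin (k + 1) → ZMod p) → (Fin (k + 1) → ZMod p) → Prop,
        G = fun w s => w ≠ 0 ∧
          N829.QD.GdN Run7.h753.TM.Bad η m (k + 1) (ext (N829.QD.dat χ l) w s) := ⟨_, rfl⟩
    have hst' : (1 - η) * ((p : ℝ) ^ (k + 1) * (p : ℝ) ^ (k + 1)) - (p : ℝ) ^ (k + 1) ≤
        ((∑ w : Fin (k + 1) → ZMod p,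
          ((univ : Finset (Fin (k + 1) → ZMod p)).filter fun s => Good w s).card : ℕ) : ℝ) := by
      subst hGood
      convert hst
    have hd := densN (p := p) (by omega) χ hχ l hl hpl hli Good
      (fun w s h => by rw [hGood] at h; exact h.1) (fun w s c hc h => by
        rw [hGood] at h ⊢
        refine ⟨fun h0 => h.1 (by
          funext j
          exact (mul_eq_zero.1 (congrFun h0 j)).resolve_left hc), ?_⟩
        unfold N829.QD.GdN
        rw [N829.QD.Nb_wsc Run7.h753.TM.bad_scInv m k hc]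
        exact h.2) (1 - δ) (by
        have : (0 : ℝ) < 1 / p := by positivity
        linarith) (by
        rw [le_div_iff₀ (by
          have : 0 < Fintype.card (Fin (k + 1) → ZMod p) := Fintype.card_pos
          positivity), Fintype.card_fun, ZMod.card, Fintype.card_fin]
        refine le_trans ?_ (hst'.trans (le_of_eq (by congr!)))
        push_cast
        have h1 : (0 : ℝ) < (p : ℝ) ^ (k + 1) := by positivity
        have h2 : (p : ℝ) ^ (k + 1) * 1 ≤ (p : ℝ) ^ (k + 1) * ((1 / p) * (p : ℝ) ^ (k + 1)) := by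
          refine mul_le_mul_of_nonneg_left ?_ h1.le
          rw [pow_succ, one_div, mul_comm ((p : ℝ) ^ k), inv_mul_cancel_left₀ hp0.ne']
          exact one_le_pow₀ hp1
        have h3 : (1 - δ) * ((p : ℝ) ^ (k + 1) * (p : ℝ) ^ (k + 1)) ≤
            (1 - η - 1 / p) * ((p : ℝ) ^ (k + 1) * (p : ℝ) ^ (k + 1)) :=
          mul_le_mul_of_nonneg_right (by linarith) (by positivity)
        linarith) ε hε
    filter_upwards [hd] with x hx
    rw [Pr_eq]
    refine le_trans hx (Nat.cast_le.2 (card_le_card ?_))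
    intro q hq
    obtain ⟨h1, h2, h34⟩ := (@Finset.mem_filter _ _ _ _ _).1 hq
    rw [hGood] at h34
    obtain ⟨h3, h4⟩ := h34
    obtain ⟨-, hqp, hpq⟩ := mem_P1.1 h1
    simp only [Finset.mem_filter]
    refine ⟨h1, fun ⟨i, hi⟩ => h2 i hi.symm, ?_⟩
    rw [← Fin.range_cons]
    refine ih (k + 1) (Fin.cons q l) ?_ ?_ ?_ ?_
    · intro i
      refine Fin.cases ?_ (fun j => ?_) i
      · exact hqp
      · exact hl j
    · intro i
      refine Fin.cases ?_ (fun j => ?_) i
      · exact hpq
      · exact hpl j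
    · rw [Fin.cons_injective_iff]
      exact ⟨fun ⟨i, hi⟩ => h2 i hi.symm, hli⟩
    · rw [N829.QD.dat_cons χ l hqp]
      exact h4

end

/-- **Many tame primes, transvections, all dimensions.** For every `r` there is a nonzero integral
polynomial `P` in the `λ i j`, `i ≠ j`, and the levels with `Criterion r P`; and for every `δ > 0` and all large `p` the property
`TameTrivial p` holds for all `r`-tuples of primes but a proportion of `δ`. -/
theorem result (r : ℕ) :
    (∃ P : MvPolynomial ((Fin r × Fin r) ⊕ Fin r) ℤ, P ≠ 0 ∧ (∀ i, Sum.inl (i, i) ∉ P.vars) ∧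
      Criterion r P) ∧
    ∀ δ : ℝ, 0 < δ → ∃ p₀ : ℕ, ∀ (p : ℕ) [Fact p.Prime], p₀ ≤ p →
      Most p δ (TameTrivial p) r ∅ := by
  classical
  obtain ⟨P, d, c, hP0, hP, hc, hdc⟩ := Run7.h753.TM.bad_card r
  obtain ⟨P', c', hP'0, hP'v, hP'e⟩ := Run7.h753.TM.off_diag hP0
  refine ⟨⟨P', hP'0, hP'v, ?_⟩, ?_⟩
  · intro p _ hp2 S hS q hq hSq χ hχ hne
    rw [hP'e] at hne
    have e : Run7.h753.TM.dpt c' (numbers χ q) = Run7.h753.TM.pnt
        (fun i j => if i = j then (c' i : ZMod p) else lk χ (q i) (q j))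
        (fun i => (((q i - 1) / p : ℕ) : ZMod p)) := by
      funext i
      rcases i with ⟨i, j⟩ | i <;> rfl
    rw [e] at hne
    have hd : ∀ i j : Fin r, i ≠ j →
        (if i = j then (c' i : ZMod p) else lk χ (q i) (q j)) = lk χ (q i) (q j) :=
      fun i j h => if_neg h
    obtain ⟨h0, h1⟩ := hP p _ _ hne
    exact transv_of hp2 S hS χ hχ q hq (fun l hl h => by
      obtain ⟨i, hi⟩ := hSq l hl h
      exact ⟨i, hi.symm⟩) (Run7.h753.TM.noS_diag (by omega) 0 hd h0)
      (Run7.h753.TM.noS_diag (by omega) 1 hd h1)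
  · intro δ hδ
    obtain ⟨B, hB⟩ := exists_nat_gt ((d : ℝ) / (δ / 2) ^ r + 2 / δ)
    refine ⟨3 + c + 1 + B, ?_⟩
    intro p _ hp0
    have hp : p.Prime := Fact.out
    have hpp : (0 : ℝ) < p := by exact_mod_cast hp.pos
    have hBp : (B : ℝ) ≤ p := by
      have : B ≤ p := by omega
      exact_mod_cast this
    have hpc : ¬ p ∣ c := fun h => by
      have := Nat.le_of_dvd (Nat.pos_of_ne_zero hc) h
      omega
    have hcard := hdc p (by omega) hpc
    obtain ⟨χ, hχ, -⟩ := extend (p := p) (fun _ => 1) ∅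
      (fun j hj => absurd hj (Set.notMem_empty j))
    have hd2 : (0 : ℝ) < (δ / 2) ^ r := by positivity
    have h1 : (d : ℝ) < (δ / 2) ^ r * p := by
      have h2 : (d : ℝ) / (δ / 2) ^ r < p := by
        have : (0 : ℝ) < 2 / δ := by positivity
        linarith
      rwa [div_lt_iff₀ hd2, mul_comm] at h2
    have h3 : 1 / (p : ℝ) ≤ δ / 2 := by
      have h4 : 2 / δ < p := by
        have : (0 : ℝ) ≤ (d : ℝ) / (δ / 2) ^ r := by positivity
        linarith
      rw [div_lt_iff₀ hδ] at h4
      rw [div_le_div_iff₀ hpp (by norm_num)]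
      linarith
    have hG : N829.QD.GdN (p := p) Run7.h753.TM.Bad (δ / 2) r 0
        (N829.QD.dat χ (Fin.elim0 : Fin 0 → ℕ)) := by
      refine N829.QD.gd_init ?_ _
      have h5 : ((((Z p r).filter fun D => Run7.h753.TM.Bad r D).card : ℕ) : ℝ) * p ≤
          d * (p : ℝ) ^ (r ^ 2 + r) := by
        exact_mod_cast hcard
      have h6 : (d : ℝ) * (p : ℝ) ^ (r ^ 2 + r) < ((δ / 2) ^ r * (p : ℝ) ^ (r ^ 2 + r)) * p := by
        calc (d : ℝ) * (p : ℝ) ^ (r ^ 2 + r) < ((δ / 2) ^ r * p) * (p : ℝ) ^ (r ^ 2 + r) :=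
              mul_lt_mul_of_pos_right h1 (by positivity)
          _ = ((δ / 2) ^ r * (p : ℝ) ^ (r ^ 2 + r)) * p := by ring
      exact lt_of_mul_lt_mul_right (lt_of_le_of_lt h5 h6) hpp.le
    have := most_of (p := p) (by omega) χ hχ (η := δ / 2) (δ := δ) (by positivity)
      (by linarith) r 0 (Fin.elim0 : Fin 0 → ℕ) (fun i => i.elim0) (fun i => i.elim0)
      (fun i => i.elim0) hG
    rwa [Set.range_eq_empty] at this

end Pool.Agent.Results.MP_f68ac8_nt.ManyTransvections
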