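import Pool.Agent.Run7.h306.NS3
import Pool.Agent.Run7.h306.NS4
import Pool.Agent.Run7.h306.NS5
import Pool.Agent.Run7.h306.FQ2
import Pool.Agent.Run7.h306.FQ8

/-!
# Wildly ramified `p`-adic representations of all dimensions and the decomposition group at `p`

Let `p` be a prime, `S` a finite set of primes, and `F` a number field which is contained in a finite Galois
extension of `ℚ` of `p`-power degree unramified outside `S` and `p` (for example `F = ℚ`). Let `A` be a
Noetherian local ring with finite residue field of characteristic `p` (for example the ring of integers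
of a finite extension of `ℚ_p`), `n` any number, and `ρ : Gal(ℚbar/F) → GL_n(A)` continuous, unramified outside
`p` and `S`, such that the semisimplification of its reduction is the sum of `n` copies of a character
(for example `ρ` residually unipotent). There is no condition on the ramification of `ρ` at `p`.

THEOREM. Suppose that only one prime `q` in `S` is congruent to `1` modulo `p`, and that `p` is not a
`p`-th power modulo `q` (for `p = 2`: `S = {q}`, `q ≡ ± 3` modulo `8`). Let `D` be the decomposition group at `p` in `Gal(ℚbar/F)`. Then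

* `D` and `Gal(ℚbar/F)` have the same image in `PGL_n`;
* for every field `K` over `A`, a subspace of `K ^ n` which is stable under `D` is stable under
  `Gal(ℚbar/F)`. More generally for every subgroup `D'` of finite index in `D` there is an open
  subgroup `J` of `Gal(ℚbar/F)`, of index at most `[D : D']`, with the same stable subspaces;
* if `p` does not divide `n` and `ρ` is irreducible over an algebraically closed field `K`, then it is
  irreducible on all subgroups of finite index in `D`.

So no irreducible `ρ` of dimension `n ≥ 2` is reducible at `p` (for example ordinary), and if `p` does not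
divide `n` no absolutely irreducible `ρ` is potentially reducible at `p`. The conjecture of Fontaine and Mazur
holds for these `ρ` because there are none.

If more primes `l` in `S` are congruent to `1` modulo `p` the theorem holds for every subgroup which contains
`D` and inertia groups at all of them but `q`. For every odd `p` the condition holds for a proportion of at
least `1 - 1/p` of the primes `q` congruent to `1` modulo `p`. For all number fields `F`, all primes `p`
and all subgroups `H` of `Gal(Fbar/F)` the three statements hold for `H` if no nonzero continuous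
homomorphism to `ℤ/p` vanishes on `H` and on all `g` for which `ρ g` is a scalar.

(If `p` is odd and `q` is not congruent to `1` modulo `p ^ 2`, the Galois group of the maximal `p`-extension of `ℚ` unramified
outside `p` and `q` is metacyclic, so the dimensions of the absolutely irreducible `ρ` in characteristic `0`
are powers of `p`; for `q` congruent to `1` modulo `p ^ 2` it is not `p`-adic analytic.)
-/

set_option autoImplicit false

open NumberField Matrix IsLocalRing

namespace Pool.Agent.Results.MP_f68ac8_nt.WildAllRanks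

open Finset Filter

attribute [local instance 10] DivisionRing.toRatAlgebra

/-- The absolute Galois group of `F`. -/
abbrev G (F : Type) [Field F] : Type := Gal(AlgebraicClosure F/F)

/-- The inertia group at the prime ideal `P` of the ring of all algebraic integers. -/
def Inertia (P : Ideal (𝓞 (AlgebraicClosure ℚ))) : Set (G ℚ) :=
  {g | ∀ x : 𝓞 (AlgebraicClosure ℚ), g • x - x ∈ P}

/-- The decomposition group at the prime ideal `P` of the ring of all algebraic integers. -/
def Decomposition (P : Ideal (𝓞 (AlgebraicClosure ℚ))) : Set (G ℚ) :=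
  {g | ∀ x : 𝓞 (AlgebraicClosure ℚ), g • x ∈ P ↔ x ∈ P}

/-- The field `F` is contained in a finite Galois extension `N` of `ℚ` whose degree is a power of `p`, and which
is unramified at all primes that do not lie above `p` or above a prime number in `S`. (For example
`F = ℚ`.) -/
def InPExtension (p : ℕ) (S : Finset ℕ) (F : IntermediateField ℚ (AlgebraicClosure ℚ)) : Prop :=
  ∃ N : IntermediateField ℚ (AlgebraicClosure ℚ), F ≤ N ∧ FiniteDimensional ℚ N ∧ IsGalois ℚ N ∧
    (∃ k : ℕ, Module.finrank ℚ N = p ^ k) ∧ ∀ P : Ideal (𝓞 (AlgebraicClosure ℚ)), P.IsMaximal →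
      (∀ l ∈ S, (l : 𝓞 (AlgebraicClosure ℚ)) ∉ P) → (p : 𝓞 (AlgebraicClosure ℚ)) ∉ P →
        Inertia P ⊆ N.fixingSubgroup

section
variable {A : Type} [CommRing A] {n : ℕ}

/-- The representation `ρ` of the Galois group of `ℚbar/F` is unramified at all primes that do not lie above `p` or above a prime number in `S`. -/
def UnramifiedOutside (p : ℕ) (S : Finset ℕ) {F : IntermediateField ℚ (AlgebraicClosure ℚ)}
    (ρ : F.fixingSubgroup →* GL (Fin n) A) : Prop :=
  ∀ P : Ideal (𝓞 (AlgebraicClosure ℚ)), P.IsMaximal →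
    (∀ l ∈ S, (l : 𝓞 (AlgebraicClosure ℚ)) ∉ P) → (p : 𝓞 (AlgebraicClosure ℚ)) ∉ P →
      ∀ g : F.fixingSubgroup, (g : G ℚ) ∈ Inertia P → ρ g = 1

variable {Γ : Type} [Group Γ]

/-- The subspace `W` of `K ^ n` is stable under the elements of `B`. -/
def Stable (K : Type) [Field K] [Algebra A K] (ρ : Γ →* GL (Fin n) A) (B : Set Γ)
    (W : Submodule K (Fin n → K)) : Prop :=
  ∀ g ∈ B, ∀ w ∈ W, (ρ g : Matrix (Fin n) (Fin n) A).map (algebraMap A K) *ᵥ w ∈ W

/-- `K ^ n` has no stable subspaces except `0` and `K ^ n`. -/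
def IrreducibleOn (K : Type) [Field K] [Algebra A K] (ρ : Γ →* GL (Fin n) A) (B : Set Γ) : Prop :=
  ∀ W : Submodule K (Fin n → K), Stable K ρ B W → W = ⊥ ∨ W = ⊤

variable [IsLocalRing A]

/-- There is a character `a` with values in the residue field such that `a g` is the only
eigenvalue of the reduction of `ρ g`, for all `g`. -/
def ResiduallyScalar (ρ : Γ →* GL (Fin n) A) : Prop :=
  ∃ a : Γ →* (ResidueField A)ˣ, ∀ g,
    IsNilpotent ((ρ g : Matrix (Fin n) (Fin n) A).map (residue A) -
      (a g : ResidueField A) • (1 : Matrix (Fin n) (Fin n) (ResidueField A)))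

/-- (i) The images of `H` and of the whole group are equal up to scalars, modulo all powers of
the maximal ideal. (ii) For every subgroup `H'` such that `H` is contained in the union of finitely many
left cosets `r H'`, `r ∈ R` (for example for `H'` of finite index in `H`) there is an open
subgroup `J` which contains `H'`, of index at most the number of elements of `R`, such that all subspaces
which are stable under `H'` are stable under `J`; for `H' = H` and `R = {1}` the group `J` is the whole
group. (iii) If `p` does not divide `n` and `ρ` is irreducible over an algebraically closed field, then it is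
irreducible on all these subgroups `H'`. -/
def Determined [TopologicalSpace Γ] (p : ℕ) (ρ : Γ →* GL (Fin n) A) (H : Subgroup Γ) : Prop :=
  (∀ (k : ℕ) (g : Γ), ∃ h ∈ H, ∃ c : A, IsUnit c ∧ ∀ i j,
    ((ρ g : Matrix (Fin n) (Fin n) A) - c • (ρ h : Matrix (Fin n) (Fin n) A)) i j ∈
      maximalIdeal A ^ k) ∧
  ∀ (H' : Subgroup Γ) (R : Set Γ), R.Finite → (∀ h ∈ H, ∃ r ∈ R, r⁻¹ * h ∈ H') →
    (∃ J : Subgroup Γ, IsOpen (J : Set Γ) ∧ H' ≤ J ∧ J.index ≠ 0 ∧ J.index ≤ R.ncard ∧
      ∀ (K : Type) [Field K] [Algebra A K] (W : Submodule K (Fin n → K)),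
        Stable K ρ H' W → Stable K ρ J W) ∧
    (¬ p ∣ n → ∀ (K : Type) [Field K] [IsAlgClosed K] [Algebra A K],
      IrreducibleOn K ρ Set.univ → IrreducibleOn K ρ H')

end

/-- For all fields `F` as in `InPExtension`, all continuous residually scalar representations of the
Galois group of `ℚbar/F` of all dimensions, over all Noetherian local rings with finite residue field of
characteristic `p`, which are unramified outside `S` and `p`, are determined on the intersection of `H`
with this Galois group. -/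
def AllDetermined (p : ℕ) (S : Finset ℕ) (H : Subgroup (G ℚ)) : Prop :=
  ∀ F : IntermediateField ℚ (AlgebraicClosure ℚ), InPExtension p S F →
    ∀ (A : Type) [CommRing A] [IsLocalRing A] [IsNoetherianRing A] [TopologicalSpace A],
    IsAdic (maximalIdeal A) → Finite (ResidueField A) → (p : A) ∈ maximalIdeal A →
    ∀ (n : ℕ) (ρ : F.fixingSubgroup →* GL (Fin n) A), Continuous ρ →
      UnramifiedOutside p S ρ → ResiduallyScalar ρ → Determined p ρ (H.subgroupOf F.fixingSubgroup)

/-- All representations as above whose tame ramification is at most at `q` (all primes `l` in `S` with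
`l ≡ 1` modulo `p` are equal to `q`) are determined on every subgroup which contains the decomposition
group at a prime above `p`. -/
def GoodPrime (p q : ℕ) : Prop :=
  ∀ S : Finset ℕ, (∀ l ∈ S, l.Prime ∧ l ≠ p) → (∀ l ∈ S, p ∣ l - 1 → l = q) →
    ∀ P : Ideal (𝓞 (AlgebraicClosure ℚ)), P.IsMaximal → (p : 𝓞 (AlgebraicClosure ℚ)) ∈ P →
      ∀ H : Subgroup (G ℚ), Decomposition P ⊆ H → AllDetermined p S H

theorem res_of {A : Type} [CommRing A] [IsLocalRing A] [IsNoetherianRing A] {n : ℕ} {Γ : Type}
    [Group Γ] {ρ : Γ →* GL (Fin n) A} (h : ResiduallyScalar ρ) : Pool.Agent.Run7.h306.NS.Res ρ := by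
  obtain ⟨a, ha⟩ := h
  intro g
  obtain ⟨c, hc⟩ := residue_surjective (R := A) (a g : ResidueField A)
  obtain ⟨N, hN⟩ := ha g
  refine ⟨c, N, ?_, fun i j => ?_⟩
  · rw [← residue_ne_zero_iff_isUnit, hc]
    exact (a g).ne_zero
  · rw [← residue_eq_zero_iff]
    have e : ((residue A).mapMatrix (((ρ g : Matrix (Fin n) (Fin n) A) - c • 1) ^ N)) i j = 0 := by
      have e1 : (residue A).mapMatrix ((ρ g : Matrix (Fin n) (Fin n) A) - c • 1) =
          (ρ g : Matrix (Fin n) (Fin n) A).map (residue A) -
            (a g : ResidueField A) • (1 : Matrix (Fin n) (Fin n) (ResidueField A)) := by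
        ext i j
        rw [RingHom.mapMatrix_apply, Matrix.map_apply, Matrix.sub_apply, Matrix.sub_apply,
          Matrix.map_apply, Matrix.smul_apply, Matrix.smul_apply, map_sub, smul_eq_mul, smul_eq_mul,
          map_mul, hc, Matrix.one_apply, Matrix.one_apply]
        split_ifs <;> simp
      rw [map_pow, e1, hN]
      rfl
    exact e

theorem determined_of (p : ℕ) [hp : Fact p.Prime] {Γ : Type} [Group Γ] [TopologicalSpace Γ]
    [IsTopologicalGroup Γ] (A : Type) [CommRing A] [IsLocalRing A] [IsNoetherianRing A]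
    [TopologicalSpace A] (hA : IsAdic (maximalIdeal A))
    (hfin : Finite (ResidueField A)) (hpA : (p : A) ∈ maximalIdeal A) {n : ℕ}
    (ρ : Γ →* GL (Fin n) A) (hρ : Continuous ρ) (hres : ResiduallyScalar ρ) (H : Subgroup Γ)
    (hkey : ∀ f : Γ →* Multiplicative (ZMod p), IsOpen (f.ker : Set Γ) →
      (∀ (g : Γ) (c : A), (ρ g : Matrix (Fin n) (Fin n) A) = c • 1 → f g = 1) →
        (∀ g ∈ H, f g = 1) → ∀ g, f g = 1) : Determined p ρ H := by
  have hc0 : Continuous fun σ => (ρ σ : Matrix (Fin n) (Fin n) A) := Units.continuous_val.comp hρ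
  have hcont : ∀ i j, Continuous fun σ => (ρ σ : Matrix (Fin n) (Fin n) A) i j := fun i j =>
    hc0.matrix_elem i j
  have hd := Pool.Agent.Run7.h306.NS.dense hA hfin hpA hcont (res_of hres) H hkey
  refine ⟨fun k g => ?_, fun H' R hRf hR => ?_⟩
  · obtain ⟨h, hh, h1⟩ := hd k g
    exact ⟨h, hh, Pool.Agent.Run7.h306.NS.image_of h1⟩
  · obtain ⟨J, k, h1, h2, h3, h4, h5⟩ :=
      Pool.Agent.Run7.h306.NS.closure_of hfin hd H' hRf hR
    refine ⟨⟨J, ?_, h2, h3.index_ne_zero, h4, fun K _ _ W hW g hg => ?_⟩,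
      fun hpn K _ _ _ hirr W hW => ?_⟩
    · exact Subgroup.isOpen_mono ((Pool.Agent.Run7.h306.NS.cong_le ρ k).trans h1)
        (Pool.Agent.Z384.cong_open hA hcont k)
    · exact Pool.Agent.Run7.h306.NS.stable_of (B := (H' : Set Γ)) (h5 g hg) K W hW
    · exact Pool.Agent.Run7.h306.NS.strong hpn hfin hpA (res_of hres) h1 h5 K
        (fun W hW => hirr W fun g _ w hw => hW g trivial w hw) W hW

theorem triv_of (p : ℕ) [hp : Fact p.Prime] (S : Finset ℕ) (hS : ∀ l ∈ S, l.Prime ∧ l ≠ p) (q : ℕ)
    (hq : q ∈ S → p ∣ q - 1 → ∀ x : ZMod q, x ^ p ≠ p)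
    (P0 : Ideal (𝓞 (AlgebraicClosure ℚ))) (hP0 : P0.IsMaximal)
    (hpP0 : (p : 𝓞 (AlgebraicClosure ℚ)) ∈ P0)
    (f : G ℚ →* Multiplicative (ZMod p)) (hf : IsOpen (f.ker : Set (G ℚ)))
    (hur : ∀ g ∈ Pool.Agent.TH831.OT.UrSet p S, f g = 1)
    (hin : ∀ l ∈ S, p ∣ l - 1 → l ≠ q → ∃ P : Ideal (𝓞 (AlgebraicClosure ℚ)), P.IsMaximal ∧
      (l : 𝓞 (AlgebraicClosure ℚ)) ∈ P ∧ ∀ τ, Pool.Agent.W569.FM.InInertia P τ → f τ = 1)
    (hD : ∀ g ∈ Pool.Agent.Run7.h306.FQ.DG P0, f g = 1) : ∀ g, f g = 1 := by
  by_cases hp2 : p = 2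
  · subst hp2
    exact Pool.Agent.Run7.h306.NS.f_trivial_two S hS q hq P0 hP0 hpP0 f hf hur hin hD
  · exact Pool.Agent.Run7.h306.FQ.f_trivial hp2 S hS q hq P0 hP0 hpP0 f hf hur hin hD

theorem local_of (p : ℕ) [hp : Fact p.Prime] (S : Finset ℕ)
    (hS : ∀ l ∈ S, l.Prime ∧ l ≠ p) (q : ℕ) (hq : q ∈ S → p ∣ q - 1 → ∀ x : ZMod q, x ^ p ≠ p)
    (P : Ideal (𝓞 (AlgebraicClosure ℚ))) (hP : P.IsMaximal) (hpP : (p : 𝓞 (AlgebraicClosure ℚ)) ∈ P)
    (H : Subgroup (G ℚ)) (hD : Decomposition P ⊆ H)
    (hI : ∀ l ∈ S, p ∣ l - 1 → l ≠ q → ∃ Q : Ideal (𝓞 (AlgebraicClosure ℚ)), Q.IsMaximal ∧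
      (l : 𝓞 (AlgebraicClosure ℚ)) ∈ Q ∧ Inertia Q ⊆ H) : AllDetermined p S H := by
  intro F hF A _ _ _ _ hA hfin hpA n ρ hρ hur hres
  obtain ⟨N, hFN, hNf, hNg, ⟨k, hk⟩, hNI⟩ := hF
  refine determined_of p A hA hfin hpA ρ hρ hres _ fun f hf h1 h2 => ?_
  refine Pool.Agent.Run7.h306.NS.ext_key (Γ := G ℚ) (Pool.Agent.TH831.OT.UrSet p S) ?_ H ?_
    F.fixingSubgroup N.fixingSubgroup ?_ (IntermediateField.fixingSubgroup_isOpen N)
    (IntermediateField.fixingSubgroup_antitone hFN) ?_ ?_ f hf ?_ (fun g hg => h2 g hg)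
  · rintro g τ ⟨P, hP, h3, h4, h5⟩
    let φ : 𝓞 (AlgebraicClosure ℚ) ≃+* 𝓞 (AlgebraicClosure ℚ) :=
      MulSemiringAction.toRingEquiv (G ℚ) (𝓞 (AlgebraicClosure ℚ)) g⁻¹
    refine ⟨P.comap (φ : 𝓞 (AlgebraicClosure ℚ) →+* 𝓞 (AlgebraicClosure ℚ)),
      Ideal.comap_isMaximal_of_surjective _ φ.surjective, fun l hl h => h3 l hl ?_,
      fun h => h4 ?_, fun x => ?_⟩
    · rwa [Ideal.mem_comap, map_natCast] at h
    · rwa [Ideal.mem_comap, map_natCast] at h
    · rw [Ideal.mem_comap]
      have h6 : (φ : 𝓞 (AlgebraicClosure ℚ) →+* 𝓞 (AlgebraicClosure ℚ)) ((g * τ * g⁻¹) • x - x) =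
          τ • (g⁻¹ • x) - g⁻¹ • x := by
        show g⁻¹ • ((g * τ * g⁻¹) • x - x) = τ • (g⁻¹ • x) - g⁻¹ • x
        rw [smul_sub, smul_smul, smul_smul]
        congr 2
        group
      rw [h6]
      exact h5 _
  · intro F' hF' h3 h4
    refine triv_of p S hS q hq P hP hpP F' hF' h3 ?_ ?_
    · intro l hl hpl hlq
      obtain ⟨Q, hQ, h5, h6⟩ := hI l hl hpl hlq
      exact ⟨Q, hQ, h5, fun τ hτ => h4 τ (h6 hτ)⟩
    · intro g hg
      exact h4 g (hD hg)
  · exact (InfiniteGalois.normal_iff_isGalois N).2 hNg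
  · intro g
    refine ⟨k, ?_⟩
    rw [← IntermediateField.restrictNormalHom_ker N, MonoidHom.mem_ker, map_pow, ← hk,
      ← IsGalois.card_aut_eq_finrank]
    exact pow_card_eq_one'
  · rintro x ⟨P', hP', h3, h4, h5⟩
    exact hNI P' hP' h3 h4 h5
  · rintro g ⟨P', hP', h3, h4, h5⟩
    refine h1 g 1 ?_
    rw [hur P' hP' h3 h4 g h5, one_smul, Units.val_one]

open Classical in
/-- **Wildly ramified representations of all dimensions.** Let `p` be a prime number.
(1) Let `S` be a finite set of primes different from `p`, `q` a number such that `p` is not a `p`-th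
power modulo `q` if `q` is in `S` and congruent to `1` modulo `p`, and `H` a subgroup that contains the
decomposition group at a prime above `p` and inertia groups at all primes `l ≠ q` in `S` which are
congruent to `1` modulo `p`. Then all residually scalar representations unramified outside `S` and `p`,
over all fields `F` which are contained in a finite Galois `p`-extension of `ℚ` unramified outside `S` and
`p`, are determined on `H`.
(2) So `GoodPrime p q` holds for all `q` for which `p` is not a `p`-th power modulo `q`, and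
(3) if `p` is odd for a proportion of at least `1 - 1/p` of all primes `q ≡ 1` modulo `p`.
(4) For all number fields `F`, a residually scalar representation `ρ` of the Galois
group of `F` is determined on `H` if no nonzero homomorphism with open kernel from the Galois group to
`ℤ/p` vanishes on `H` and on all `g` for which `ρ g` is a scalar. -/
theorem result (p : ℕ) [Fact p.Prime] :
    -- (1)
    (∀ S : Finset ℕ, (∀ l ∈ S, l.Prime ∧ l ≠ p) → ∀ q : ℕ,
      (q ∈ S → p ∣ q - 1 → ∀ x : ZMod q, x ^ p ≠ p) →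
      ∀ P : Ideal (𝓞 (AlgebraicClosure ℚ)), P.IsMaximal → (p : 𝓞 (AlgebraicClosure ℚ)) ∈ P →
      ∀ H : Subgroup (G ℚ), Decomposition P ⊆ H →
      (∀ l ∈ S, p ∣ l - 1 → l ≠ q → ∃ Q : Ideal (𝓞 (AlgebraicClosure ℚ)), Q.IsMaximal ∧
        (l : 𝓞 (AlgebraicClosure ℚ)) ∈ Q ∧ Inertia Q ⊆ H) → AllDetermined p S H) ∧
    -- (2)
    (∀ q : ℕ, (∀ x : ZMod q, x ^ p ≠ p) → GoodPrime p q) ∧
    -- (3)
    (p ≠ 2 → ∀ ε : ℝ, 0 < ε → ∀ᶠ x : ℕ in atTop, (1 - 1 / (p : ℝ) - ε) *
      (((range (x + 1)).filter fun q => q.Prime ∧ p ∣ q - 1).card : ℝ) ≤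
      (((range (x + 1)).filter fun q => q.Prime ∧ p ∣ q - 1 ∧ GoodPrime p q).card : ℝ)) ∧
    -- (4)
    (∀ (F : Type) [Field F] [NumberField F] (A : Type) [CommRing A] [IsLocalRing A]
      [IsNoetherianRing A] [TopologicalSpace A], IsAdic (maximalIdeal A) →
      Finite (ResidueField A) → (p : A) ∈ maximalIdeal A → ∀ (n : ℕ) (ρ : G F →* GL (Fin n) A),
      Continuous ρ → ResiduallyScalar ρ → ∀ H : Subgroup (G F),
      (∀ f : G F →* Multiplicative (ZMod p), IsOpen (f.ker : Set (G F)) →
        (∀ (g : G F) (c : A), (ρ g : Matrix (Fin n) (Fin n) A) = c • 1 → f g = 1) →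
        (∀ g ∈ H, f g = 1) → ∀ g, f g = 1) → Determined p ρ H) := by
  have h2 : ∀ q : ℕ, (∀ x : ZMod q, x ^ p ≠ p) → GoodPrime p q := by
    intro q hq S hS hSq P hP hpP H hD
    exact local_of p S hS q (fun _ _ => hq) P hP hpP H hD
      (fun l hl hpl hlq => absurd (hSq l hl hpl) hlq)
  refine ⟨fun S hS q hq P hP hpP H hD hI => local_of p S hS q hq P hP hpP H hD hI, h2,
    fun hp2 ε hε => ?_, fun F _ _ A _ _ _ _ hA hfin hpA n ρ hρ hres H hkey =>
      determined_of p A hA hfin hpA ρ hρ hres H hkey⟩
  filter_upwards [Pool.Agent.Run7.h306.FQ.dens hp2 ε hε] with x hx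
  refine le_trans hx (Nat.cast_le.2 (card_le_card fun q hq => ?_))
  rw [mem_filter] at hq ⊢
  exact ⟨hq.1, hq.2.1, hq.2.2.1, h2 q hq.2.2.2⟩

end Pool.Agent.Results.MP_f68ac8_nt.WildAllRanks
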