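import Pool.Agent.Run7.h707.UI.Cyc
import Pool.Agent.Run7.h707.UI.FacE

/-!
# Representations ramified at `p` of `p`-extensions with few characters

Let `p` be an odd prime and let `K/ℚ` be a Galois extension of `p`-power degree. Suppose that the
space of the continuous homomorphisms from the absolute Galois group of `K` to `ℤ/p` unramified
outside `p` has dimension at most `(p - 1) / 2`, or that the absolute Galois group of `ℚ` acts
trivially on it. Then every continuous representation of the absolute Galois group of `K` into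
`GL_n(ℤ_p)` (for all `n`) which is unramified outside `p` and trivial modulo `p` factors through the
cyclotomic `ℤ_p`-extension of `K`. The same holds over a number field `F` with at most one cyclic
extension of degree `p` unramified outside a set `S` of primes. Infinitely many cyclic extensions of
`ℚ` of degree `p`, with any number of ramified primes, satisfy the condition of trivial action.
-/

set_option autoImplicit false

open NumberField

namespace Pool.Agent.Results.MP_f68ac8_nt.WildTrivialAction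

/-- The absolute Galois group of the field `F`. -/
abbrev AbsGal (F : Type) [Field F] : Type := Gal(AlgebraicClosure F/F)

/-- The extensions of the field `F` inside its algebraic closure. -/
abbrev Ext (F : Type) [Field F] : Type := IntermediateField F (AlgebraicClosure F)

/-- `τ` is an element of an inertia group at a prime outside `S`: it acts trivially modulo some
maximal ideal `P` of the ring of all algebraic integers, and the prime of `F` below `P` is not in
`S`. -/
def InertiaOutside {F : Type} [Field F] (S : Set (Ideal (𝓞 F))) (τ : AbsGal F) : Prop :=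
  ∃ P : Ideal (𝓞 (AlgebraicClosure F)), P.IsMaximal ∧
    P.comap (algebraMap (𝓞 F) (𝓞 (AlgebraicClosure F))) ∉ S ∧
    ∀ x : 𝓞 (AlgebraicClosure F), τ • x - x ∈ P

/-- The homomorphism `f` from the subgroup `U` of the absolute Galois group of `F` to a group `E` is
unramified outside `S`, a set of primes of `F`: it is trivial on the inertia groups in `U` at all
primes which do not lie above a prime in `S`. -/
def UnramifiedOutside {F : Type} [Field F] (S : Set (Ideal (𝓞 F))) {U : Subgroup (AbsGal F)}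
    {E : Type} [Group E] (f : U →* E) : Prop :=
  ∀ τ : U, InertiaOutside S (τ : AbsGal F) → f τ = 1

/-- `f` is a continuous homomorphism to `ℤ/p`, unramified outside `S`. -/
def Mem {F : Type} [Field F] (S : Set (Ideal (𝓞 F))) {U : Subgroup (AbsGal F)} {p : ℕ}
    (f : U →* Multiplicative (ZMod p)) : Prop :=
  IsOpen (f.ker : Set U) ∧ UnramifiedOutside S f

/-- `f` is killed by all products of `d` differences `σ - 1`, where `σ` in the absolute Galois group
of `F` acts on functions by `(σ f)(g) = f(σ g σ⁻¹)`. -/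
def KilledBy {F : Type} [Field F] {U : Subgroup (AbsGal F)} {p : ℕ} : ℕ → (U → ZMod p) → Prop
  | 0, f => ∀ g, f g = 0
  | d + 1, f => ∀ (σ : AbsGal F) (f' : U → ZMod p),
      (∀ g g' : U, (g' : AbsGal F) = σ * g * σ⁻¹ → f' g = f g' - f g) → KilledBy d f'

/-- All homomorphisms from the absolute Galois group of `K` to `ℤ/p` which are continuous and
unramified outside `S` are killed by all products of `d` differences `σ - 1`. -/
def ShortAction {F : Type} [Field F] (S : Set (Ideal (𝓞 F))) (K : Ext F) (p d : ℕ) : Prop :=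
  ∀ f : K.fixingSubgroup →* Multiplicative (ZMod p), Mem S f →
    KilledBy d fun g => Multiplicative.toAdd (f g)

/-- The space of the homomorphisms from the absolute Galois group of `K` to `ℤ/p` which are
continuous and unramified outside `S` has at most `p ^ r` elements. -/
def RankLe {F : Type} [Field F] (S : Set (Ideal (𝓞 F))) (K : Ext F) (p r : ℕ) : Prop :=
  Set.encard {f : K.fixingSubgroup →* Multiplicative (ZMod p) | Mem S f} ≤ ((p ^ r : ℕ) : ℕ∞)

/-- Every `ρ g` is unipotent modulo `p`: some power of `ρ g - 1` is divisible by `p`. -/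
def ResiduallyUnipotent {F : Type} [Field F] {U : Subgroup (AbsGal F)} {p : ℕ} [Fact p.Prime]
    {n : ℕ} (ρ : U →* GL (Fin n) ℤ_[p]) : Prop :=
  ∀ g, ∃ M : ℕ, ∀ i j, (p : ℤ_[p]) ∣ (((ρ g : Matrix (Fin n) (Fin n) ℤ_[p]) - 1) ^ M) i j

/-- All products of `e` matrices of the form `ρ g - 1` are divisible by `p`. For `e = 1` this means
that `ρ` is trivial modulo `p`. -/
def Depth {F : Type} [Field F] {U : Subgroup (AbsGal F)} {p : ℕ} [Fact p.Prime] (e : ℕ)
    {n : ℕ} (ρ : U →* GL (Fin n) ℤ_[p]) : Prop :=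
  ∀ l : List U, l.length = e → ∀ i j,
    (p : ℤ_[p]) ∣ (l.map fun g => (ρ g : Matrix (Fin n) (Fin n) ℤ_[p]) - 1).prod i j

/-- `ρ` is continuous and unramified outside `S`, and it satisfies `Depth e`, or it is residually
unipotent and its dimension is at most `e`. -/
def Good {F : Type} [Field F] (S : Set (Ideal (𝓞 F))) (e : ℕ) {U : Subgroup (AbsGal F)} {p : ℕ}
    [Fact p.Prime] {n : ℕ} (ρ : U →* GL (Fin n) ℤ_[p]) : Prop :=
  Continuous ρ ∧ UnramifiedOutside S ρ ∧ (Depth e ρ ∨ n ≤ e ∧ ResiduallyUnipotent ρ)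

/-- `F` has at most one cyclic extension of degree `p` unramified outside `S`: two nontrivial
homomorphisms from the absolute Galois group of `F` to `ℤ/p`, continuous and unramified outside `S`,
have the same kernel. -/
def OneCharacter {F : Type} [Field F] (S : Set (Ideal (𝓞 F))) (p : ℕ) : Prop :=
  ∀ f f' : AbsGal F →* Multiplicative (ZMod p), IsOpen (f.ker : Set (AbsGal F)) →
    IsOpen (f'.ker : Set (AbsGal F)) → (∀ τ, InertiaOutside S τ → f τ = 1 ∧ f' τ = 1) →
      f ≠ 1 → f' ≠ 1 → f.ker = f'.ker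

/-- The elements of the absolute Galois group of `F` which fix the maximal `p`-extension of `F`
unramified outside `S`: they lie in all open normal subgroups `N` of `p`-power index which contain
the inertia groups outside `S`. -/
def TowerKernel {F : Type} [Field F] (S : Set (Ideal (𝓞 F))) (p : ℕ) : Set (AbsGal F) :=
  {g | ∀ N : Subgroup (AbsGal F), N.Normal → IsOpen (N : Set (AbsGal F)) →
    (∀ σ : AbsGal F, ∃ j : ℕ, σ ^ p ^ j ∈ N) → (∀ τ, InertiaOutside S τ → τ ∈ N) → g ∈ N}

/-- All representations of the absolute Galois group of `K` into `GL_n(ℤ_p)` as in `Good S e` are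
trivial on the elements which fix the maximal `p`-extension of `F` unramified outside `S`. -/
def Factors {F : Type} [Field F] (S : Set (Ideal (𝓞 F))) (K : Ext F) (p e : ℕ) [Fact p.Prime] :
    Prop :=
  ∀ (n : ℕ) (ρ : K.fixingSubgroup →* GL (Fin n) ℤ_[p]), Good S e ρ →
    ∀ g : K.fixingSubgroup, (g : AbsGal F) ∈ TowerKernel S p → ρ g = 1

/-- The primes above `q`. -/
def above {F : Type} [Field F] (q : ℕ) : Set (Ideal (𝓞 F)) := {P | (q : 𝓞 F) ∈ P}

/-- For all representations `ρ` of the absolute Galois group of `K` as in `Good (above p) e`, the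
value `ρ g` depends only on the action of `g` on the roots of unity of `p`-power order. -/
def CyclotomicOnly (K : Ext ℚ) (p e : ℕ) [Fact p.Prime] : Prop :=
  ∀ (n : ℕ) (ρ : K.fixingSubgroup →* GL (Fin n) ℤ_[p]), Good (above p) e ρ →
    ∀ g h : K.fixingSubgroup, (∀ (ζ : AlgebraicClosure ℚ) (k : ℕ), ζ ^ p ^ k = 1 →
      (g : AbsGal ℚ) ζ = (h : AbsGal ℚ) ζ) → ρ g = ρ h

/-- The value of `χ_j` at the class of `l` modulo `j` (and `0` if `j` and `l` are not coprime). -/
def value {p : ℕ} (χ : ∀ j : ℕ, (ZMod j)ˣ →* Multiplicative (ZMod p)) (j l : ℕ) : ZMod p :=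
  if h : l.Coprime j then Multiplicative.toAdd (χ j (ZMod.unitOfCoprime l h)) else 0

/-- `K` is the extension of `ℚ` cut out by the product of the Dirichlet characters `χ_l`, `l ∈ T`:
an element `g` of the absolute Galois group of `ℚ`, which acts on the `l`-th roots of unity as the
power `a_l` for all `l ∈ T`, fixes `K` if and only if `∏ χ_l(a_l) = 1`. -/
def CutOut {p : ℕ} (T : Finset ℕ) (χ : ∀ l : ℕ, (ZMod l)ˣ →* Multiplicative (ZMod p))
    (K : Ext ℚ) : Prop :=
  ∀ (g : AbsGal ℚ) (a : ∀ l : ℕ, (ZMod l)ˣ),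
    (∀ l ∈ T, ∀ ζ : AlgebraicClosure ℚ, ζ ^ l = 1 → g ζ = ζ ^ ((a l : (ZMod l)ˣ) : ZMod l).val) →
      (g ∈ K.fixingSubgroup ↔ ∏ l ∈ T, χ l (a l) = 1)

/-- The Rédei type condition for the set `T` of the primes ramified in `K` and the prime `p`: if
`((l - 1) / p) y + ∑_{j ∈ T, j ≠ l} χ_j(l) (x_j - x_l) = 0` for all `l` in `T`, then `y = 0` and the
function `x` is constant on `T`. -/
def FullRank {p : ℕ} (T : Finset ℕ) (χ : ∀ l : ℕ, (ZMod l)ˣ →* Multiplicative (ZMod p)) : Prop :=
  ∀ (y : ZMod p) (x : ℕ → ZMod p), (∀ l ∈ T, (((l - 1) / p : ℕ) : ZMod p) * y +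
    ∑ j ∈ T.erase l, value χ j l * (x j - x l) = 0) → y = 0 ∧ ∃ c, ∀ l ∈ T, x l = c

/-- `T` is a nonempty set of primes different from `p`, and `χ_l` is nontrivial for all `l` in `T`
(so that `l` is congruent to `1` modulo `p`). -/
def Admissible {p : ℕ} (T : Finset ℕ) (χ : ∀ l : ℕ, (ZMod l)ˣ →* Multiplicative (ZMod p)) : Prop :=
  T.Nonempty ∧ ∀ l ∈ T, l.Prime ∧ l ≠ p ∧ χ l ≠ 1

theorem result (p : ℕ) [Fact p.Prime] (hp2 : p ≠ 2) :
    (∀ (F : Type) [Field F] [NumberField F] (S : Set (Ideal (𝓞 F))), OneCharacter S p →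
      ∀ (K : Ext F) [FiniteDimensional F K] [IsGalois F K] (a : ℕ), Module.finrank F K = p ^ a →
        (∀ d e : ℕ, 1 ≤ d → (2 * d - 1) * e ≤ p - 2 → ShortAction S K p d → Factors S K p e) ∧
        (∀ r : ℕ, RankLe S K p r → ShortAction S K p r) ∧
        (∀ r : ℕ, RankLe S K p r → 2 * r ≤ p - 1 → Factors S K p 1)) ∧
    OneCharacter (F := ℚ) (above p) p ∧
    (∀ (K : Ext ℚ) (e : ℕ), Factors (above p) K p e → CyclotomicOnly K p e) ∧
    (∀ (T : Finset ℕ) (χ : ∀ l : ℕ, (ZMod l)ˣ →* Multiplicative (ZMod p)),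
      Admissible T χ → (∃ K : Ext ℚ, CutOut T χ K) ∧ ∀ K : Ext ℚ, CutOut T χ K →
        IsGalois ℚ K ∧ Module.finrank ℚ K = p ∧
        ((p ^ (T.card - 1) : ℕ) : ℕ∞) ≤
          Set.encard {f : K.fixingSubgroup →* Multiplicative (ZMod p) | Mem ∅ f} ∧
        (FullRank T χ → ShortAction (above p) K p 1 ∧ CyclotomicOnly K p (p - 2))) ∧
    (∀ t : ℕ, 1 ≤ t → ∀ B : ℕ, ∃ (T : Finset ℕ)
      (χ : ∀ l : ℕ, (ZMod l)ˣ →* Multiplicative (ZMod p)),
        T.card = t ∧ (∀ l ∈ T, B < l) ∧ Admissible T χ ∧ FullRank T χ) := by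
  have hp : p.Prime := Fact.out
  -- the two descriptions of the differences
  have k1 : ∀ {F : Type} [Field F] {U : Subgroup (AbsGal F)} [hN : U.Normal] (d : ℕ)
      (f : U → ZMod p), KilledBy d f → ∀ l : List (AbsGal F), l.length = d → ∀ g,
        Run7.h707.UH.Dl l f g = 0 := by
    intro F _ U hN d
    induction d with
    | zero =>
      intro f hf l hl g
      have hl0 : l = [] := List.length_eq_zero_iff.1 hl
      rw [hl0]
      exact hf g
    | succ d ih =>
      intro f hf l hl g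
      match l, hl with
      | [], hl => simp at hl
      | σ :: l, hl =>
        rw [List.length_cons, Nat.succ_inj] at hl
        rw [Run7.h707.UH.Dl_cons]
        refine ih _ (hf σ _ fun g g' hg => ?_) l hl g
        have h6 : g' = Pool.Agent.N829.TT.al U σ g := by
          apply Subtype.ext
          rw [hg, Pool.Agent.N829.TT.al_coe]
        rw [h6]
        rfl
  have k2 : ∀ {F : Type} [Field F] {U : Subgroup (AbsGal F)} [hN : U.Normal] (d : ℕ)
      (f : U → ZMod p), (∀ l : List (AbsGal F), l.length = d → ∀ g,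
        Run7.h707.UH.Dl l f g = 0) → KilledBy d f := by
    intro F _ U hN d
    induction d with
    | zero =>
      intro f hf g
      exact hf [] rfl g
    | succ d ih =>
      intro f hf σ f' hf'
      have e : f' = Run7.h707.UF.Ss σ f - f := by
        funext g
        exact hf' g (Pool.Agent.N829.TT.al U σ g) (Pool.Agent.N829.TT.al_coe σ g)
      rw [e]
      exact ih _ fun l hl g => hf (σ :: l) (by rw [List.length_cons, hl]) g
  -- the general factorization
  have fac : ∀ (F : Type) [Field F] [CharZero F] (K : Ext F) (S : Set (Ideal (𝓞 F))) (a d e : ℕ)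
      (γ : AbsGal F), (∀ f : AbsGal F →* Multiplicative (ZMod p),
        IsOpen (f.ker : Set (AbsGal F)) → (∀ x ∈ Run7.h707.UG.Wf S, f x = 1) → f γ = 1 →
          ∀ g, f g = 1) → K.fixingSubgroup.Normal → K.fixingSubgroup.index = p ^ a →
      IsOpen (K.fixingSubgroup : Set (AbsGal F)) → 1 ≤ d → (2 * d - 1) * e ≤ p - 2 →
        ShortAction S K p d → Factors S K p e := by
    intro F _ _ K S a d e γ hγ hN hi ho hd1 hde hsh n ρ hρ g hg
    exact Run7.h707.UI.fac_nfE hp2 hd1 hde ho hi
      (fun f hf hfu l hl g => k1 d _ (hsh f ⟨hf, hfu⟩) l hl g) hγ hρ.1 hρ.2.1 hρ.2.2 g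
      (fun N hN' ho' hpg hW => hg N hN' ho' hpg fun τ hτ => hW τ hτ)
  -- divisibility
  have hdiv : ∀ (l : ℕ) (χ : (ZMod l)ˣ →* Multiplicative (ZMod p)), l.Prime → χ ≠ 1 →
      p ∣ l - 1 ∧ ∃ x, χ x ≠ 1 := by
    intro l χ hl hχ
    have hx : ∃ x, χ x ≠ 1 := by
      by_contra hcon
      push Not at hcon
      exact hχ (MonoidHom.ext hcon)
    refine ⟨?_, hx⟩
    obtain ⟨x, hx⟩ := hx
    by_contra hnd
    have : Fact l.Prime := ⟨hl⟩
    have h1 : χ x ^ (l - 1) = 1 := by
      rw [← map_pow, ← ZMod.card_units l, pow_card_eq_one, map_one]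
    have h2 : χ x ^ p = 1 := by
      apply Multiplicative.toAdd.injective
      rw [toAdd_pow, toAdd_one, nsmul_eq_mul, CharP.cast_eq_zero, zero_mul]
    apply hx
    have h3 : Nat.Coprime p (l - 1) := (hp.coprime_iff_not_dvd).2 hnd
    have h4 : orderOf (χ x) ∣ Nat.gcd p (l - 1) :=
      Nat.dvd_gcd (orderOf_dvd_of_pow_eq_one h2) (orderOf_dvd_of_pow_eq_one h1)
    rw [h3] at h4
    exact orderOf_eq_one_iff.1 (Nat.dvd_one.1 h4)
  have hab : ∀ (q : ℕ) (τ : AbsGal ℚ), InertiaOutside (above q) τ ↔ τ ∈ Run7.h707.UG.Wq q := by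
    intro q τ
    have h : ∀ P : Ideal (𝓞 (AlgebraicClosure ℚ)),
        P.comap (algebraMap (𝓞 ℚ) (𝓞 (AlgebraicClosure ℚ))) ∈ above (F := ℚ) q ↔
          (q : 𝓞 (AlgebraicClosure ℚ)) ∈ P := by
      intro P
      show (q : 𝓞 ℚ) ∈ P.comap (algebraMap (𝓞 ℚ) (𝓞 (AlgebraicClosure ℚ))) ↔ _
      rw [Ideal.mem_comap, map_natCast]
    constructor
    · rintro ⟨P, hP, hq, hx⟩
      exact ⟨P, hP, fun h' => hq ((h P).2 h'), hx⟩
    · rintro ⟨P, hP, hq, hx⟩
      exact ⟨P, hP, fun h' => hq ((h P).1 h'), hx⟩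
  have hab' : ∀ (q : ℕ) (τ : AbsGal ℚ), InertiaOutside (above q) τ ↔ τ ∈ Run7.h707.UG.Wr {q} := by
    intro q τ
    rw [hab]
    constructor
    · rintro ⟨P, hP, hq, hx⟩
      exact ⟨P, hP, fun q' hq' => by rw [Finset.mem_singleton.1 hq']; exact hq, hx⟩
    · rintro ⟨P, hP, hq, hx⟩
      exact ⟨P, hP, hq q (Finset.mem_singleton_self q), hx⟩
  obtain ⟨γ, hγ⟩ := Run7.h707.UI.exists_gamma_p (p := p) hp2
  have hγ' : ∀ f : AbsGal ℚ →* Multiplicative (ZMod p),
      IsOpen (f.ker : Set (AbsGal ℚ)) → (∀ x ∈ Run7.h707.UG.Wf (F := ℚ) (above p), f x = 1) →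
        f γ = 1 → ∀ g, f g = 1 := fun f hf hfu h1 g =>
    hγ f hf (fun x hx => hfu x ((hab' p x).2 hx)) h1 g
  have hcyc : ∀ (K : Ext ℚ) (e : ℕ), Factors (above p) K p e → CyclotomicOnly K p e := by
    intro K e hF n ρ hρ g h hgh
    have h1 := hF n ρ hρ (g⁻¹ * h) (by
      intro N hN' ho' hpg hW
      refine Run7.h707.UI.in_ker_cyc hp2 hγ N ho' hpg (fun x hx => hW x ((hab' p x).2 hx)) ?_
      intro ζ k hζ
      show ((g : AbsGal ℚ)⁻¹ * (h : AbsGal ℚ)) ζ = ζ
      rw [AlgEquiv.mul_apply, ← hgh ζ k hζ]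
      exact (g : AbsGal ℚ).symm_apply_apply ζ)
    rw [map_mul, map_inv, inv_mul_eq_one] at h1
    exact h1
  have hOneQ : OneCharacter (F := ℚ) (above p) p := by
    intro f f' hf hf' hu h1 h2
    have k1 : f γ ≠ 1 := fun h => h1 (MonoidHom.ext fun g =>
      hγ' f hf (fun x hx => (hu x hx).1) h g)
    have k2 : f' γ ≠ 1 := fun h => h2 (MonoidHom.ext fun g =>
      hγ' f' hf' (fun x hx => (hu x hx).2) h g)
    have key : ∀ f f' : AbsGal ℚ →* Multiplicative (ZMod p), IsOpen (f.ker : Set (AbsGal ℚ)) →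
        IsOpen (f'.ker : Set (AbsGal ℚ)) →
        (∀ τ, InertiaOutside (above p) τ → f τ = 1 ∧ f' τ = 1) → f γ ≠ 1 →
          ∀ g, f g = 1 → f' g = 1 := by
      intro f f' hf hf' hu k1 g hg
      set u := Multiplicative.toAdd (f γ) with hud
      set v := Multiplicative.toAdd (f' γ) with hvd
      have hu0 : u ≠ 0 := fun h => k1 (Multiplicative.toAdd.injective (by rw [toAdd_one]; exact h))
      let F : AbsGal ℚ →* Multiplicative (ZMod p) :=
        { toFun := fun g => Multiplicative.ofAdd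
            (u * Multiplicative.toAdd (f' g) - v * Multiplicative.toAdd (f g))
          map_one' := by simp
          map_mul' := fun a b => by
            rw [← ofAdd_add]
            congr 1
            simp only [map_mul, toAdd_mul]
            ring }
      have hF : ∀ g, F g = Multiplicative.ofAdd
          (u * Multiplicative.toAdd (f' g) - v * Multiplicative.toAdd (f g)) := fun g => rfl
      have hFo : IsOpen (F.ker : Set (AbsGal ℚ)) := by
        have h3 : IsOpen ((f.ker ⊓ f'.ker : Subgroup (AbsGal ℚ)) : Set (AbsGal ℚ)) := by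
          rw [Subgroup.coe_inf]
          exact hf.inter hf'
        refine Subgroup.isOpen_mono ?_ h3
        rintro x ⟨h4, h5⟩
        have h4' : f x = 1 := h4
        have h5' : f' x = 1 := h5
        show F x = 1
        rw [hF, h4', h5']
        simp
      have h3 := hγ' F hFo (fun x hx => by
        rw [hF, (hu x hx).1, (hu x hx).2]
        simp) (by rw [hF, ← hud, ← hvd, mul_comm, sub_self]; rfl) g
      rw [hF, hg, toAdd_one, mul_zero, sub_zero] at h3
      have h4 : u * Multiplicative.toAdd (f' g) = 0 := congrArg Multiplicative.toAdd h3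
      exact Multiplicative.toAdd.injective ((mul_eq_zero.1 h4).resolve_left hu0)
    ext g
    rw [MonoidHom.mem_ker, MonoidHom.mem_ker]
    exact ⟨key f f' hf hf' hu k1 g, key f' f hf' hf (fun τ hτ => ⟨(hu τ hτ).2, (hu τ hτ).1⟩) k2 g⟩
  refine ⟨?_, hOneQ, hcyc, ?_, ?_⟩
  · intro F _ _ S h1 K _ _ a ha
    have hN : K.fixingSubgroup.Normal := (InfiniteGalois.normal_iff_isGalois K).2 inferInstance
    have hi : K.fixingSubgroup.index = p ^ a := by rw [Run7.h707.UF.index_eq, ha]
    have ho := IntermediateField.fixingSubgroup_isOpen K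
    have hγ : ∃ γ : AbsGal F, ∀ f : AbsGal F →* Multiplicative (ZMod p),
        IsOpen (f.ker : Set (AbsGal F)) → (∀ x ∈ Run7.h707.UG.Wf S, f x = 1) → f γ = 1 →
          ∀ g, f g = 1 := by
      by_cases hex : ∃ f0 : AbsGal F →* Multiplicative (ZMod p),
          IsOpen (f0.ker : Set (AbsGal F)) ∧ (∀ x ∈ Run7.h707.UG.Wf S, f0 x = 1) ∧ f0 ≠ 1
      · obtain ⟨f0, h2, h3, h4⟩ := hex
        obtain ⟨γ, hγ⟩ : ∃ γ, f0 γ ≠ 1 := by
          by_contra hcon
          push Not at hcon
          exact h4 (MonoidHom.ext hcon)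
        refine ⟨γ, fun f hf hfu hfγ g => ?_⟩
        by_contra hg
        have h5 := h1 f f0 hf h2 (fun τ hτ => ⟨hfu τ hτ, h3 τ hτ⟩)
          (fun h => hg (by rw [h]; rfl)) h4
        have h6 : γ ∈ f.ker := hfγ
        rw [h5] at h6
        exact hγ h6
      · push Not at hex
        exact ⟨1, fun f hf hfu _ g => by rw [hex f hf hfu]; rfl⟩
    obtain ⟨γ, hγ⟩ := hγ
    have hrk : ∀ r : ℕ, RankLe S K p r → ShortAction S K p r := by
      intro r hr f hf
      refine k2 r _ fun l hl g => ?_
      exact Run7.h707.UH.kill_ch (Run7.h707.UG.Wf_conj S) (a := a)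
        (fun σ => hi ▸ K.fixingSubgroup.pow_index_mem σ) hr f hf.1 hf.2 l hl g
    refine ⟨fun d e hd1 hde hsh => fac F K S a d e γ hγ hN hi ho hd1 hde hsh, hrk, ?_⟩
    intro r hr hrp
    have h3p : 3 ≤ p := by
      have := hp.two_le
      omega
    have hr' : RankLe S K p (max r 1) := by
      refine le_trans hr ?_
      exact_mod_cast Nat.pow_le_pow_right hp.pos (le_max_left r 1)
    have hb1 : (2 * max r 1 - 1) * 1 ≤ p - 2 := by omega
    exact fac F K S a (max r 1) 1 γ hγ hN hi ho (le_max_right r 1) hb1 (hrk _ hr')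
  · intro T χ hA
    have hS : ∀ l ∈ T, l.Prime ∧ l ≠ p := fun l hl => ⟨(hA.2 l hl).1, (hA.2 l hl).2.1⟩
    have hS1 : ∀ l ∈ T, p ∣ l - 1 := fun l hl =>
      (hdiv l (χ l) (hA.2 l hl).1 (hA.2 l hl).2.2).1
    have hχ : ∀ l ∈ T, p ∣ l - 1 → ∃ x, χ l x ≠ 1 := fun l hl _ =>
      (hdiv l (χ l) (hA.2 l hl).1 (hA.2 l hl).2.2).2
    refine ⟨Run7.h707.UF.cut_ex hp2 hS hS1 hχ, fun K hK => ?_⟩
    obtain ⟨h1, h2, h3, -⟩ := Run7.h707.UF.cut_main hp2 hS hS1 hχ hA.1 K hK
    have hfr : Module.finrank ℚ K = p := by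
      rw [← h2]
      exact IntermediateField.finrank_eq_fixingSubgroup_index _ K
    have hfd : FiniteDimensional ℚ K := Module.finite_of_finrank_pos (by rw [hfr]; exact hp.pos)
    have hG : IsGalois ℚ K := (InfiniteGalois.normal_iff_isGalois K).1 h1
    refine ⟨hG, hfr, ?_, fun hR => ?_⟩
    · refine h3.trans (Set.encard_le_encard ?_)
      rintro f ⟨h5, h6⟩
      refine ⟨h5, ?_⟩
      rintro τ ⟨P, hP, -, hx⟩
      exact h6 τ ⟨P, hP, hx⟩
    · have htr : ShortAction (above p) K p 1 := by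
        intro f hf σ f' hf' g
        have h5 := Run7.h707.UI.cutP hp2 hS hS1 hχ hA.1 K hK hR f hf.1
          (fun x hx => hf.2 x ((hab' p _).2 hx)) σ g
        have h6 := hf' g (Pool.Agent.N829.TT.al K.fixingSubgroup σ g)
          (Pool.Agent.N829.TT.al_coe σ g)
        rw [h6]
        show Multiplicative.toAdd (f (Pool.Agent.N829.TT.al K.fixingSubgroup σ g)) -
          Multiplicative.toAdd (f g) = 0
        rw [h5, sub_self]
      exact ⟨htr, hcyc K (p - 2) (fac ℚ K (above p) 1 1 (p - 2) γ hγ' h1 (by rw [h2, pow_one])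
        (IntermediateField.fixingSubgroup_isOpen K) le_rfl (by omega) htr)⟩
  · intro t ht B
    choose χ hχ using fun j => Run7.h707.UF.ex_chi p j
    obtain ⟨T, h1, h2, h3⟩ := Run7.h707.UI.ex_setsP (χ := χ) (fun j hj hj1 => hχ j hj hj1)
      (max B p) t ht
    have hne : T.Nonempty := Finset.card_pos.1 (by omega)
    refine ⟨T, χ, h1, fun l hl => lt_of_le_of_lt (le_max_left B p) (h2 l hl).2.2, ⟨hne,
      fun l hl => ⟨(h2 l hl).1, (lt_of_le_of_lt (le_max_right B p) (h2 l hl).2.2).ne', ?_⟩⟩, h3⟩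
    obtain ⟨x, hx⟩ := hχ l (h2 l hl).1 (h2 l hl).2.1
    exact fun h => hx (by rw [h]; rfl)

end Pool.Agent.Results.MP_f68ac8_nt.WildTrivialAction
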